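import Pool.Agent.H92.EM.TB

/-!
Row MKZ of the board emd_modules (MP_75a732_an): induction on the codimension (after
`Pool/Agent/H37/EHD/EKZ.lean`).
-/

set_option autoImplicit false

namespace Pool.Agent.H11.EM

open scoped BigOperators ComplexConjugate ContDiff ComplexOrder
open MeasureTheory Pool.Agent.H92.EQ Pool.Agent.H92.EM

/-- Row MKZ. -/
theorem pf_MKZ (hMLE : T_MLE) (hMTZ : T_MTZ) (hMRZ : T_MRZ) (hMKN : T_MKN) (hMKP : T_MKP)
    (hMKO : T_MKO) : T_MKZ := by
  intro m k d p κ F 𝒦 hm hk hd hF hst hZ hP
  have key : ∀ j p, k + 1 ≤ p + j → ConvE m F d p 𝒦 := by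
    intro j
    induction j with
    | zero =>
      intro p hp q hq
      omega
    | succ j ih =>
      intro p hp
      by_cases h : k + 1 ≤ p
      · intro q hq
        omega
      · have hC : CstE m F d p 𝒦 := by
          by_cases hmk : m ≤ k
          · exact hMKN m k d p F 𝒦 hmk hk hd (by omega) hF hst (ih (p + 1) (by omega))
              (hP hmk) (fun q => hMLE m k p q hm)
          · have hm1 : m = k + 1 := by omega
            subst hm1
            exact hMKP k d p F 𝒦 hk hd (by omega) hF (fun q => hMLE (k + 1) k p q hm)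
        exact hMKO m k d p κ F 𝒦 hm hk hd (by omega) hF hst hZ hC
          (fun q hq => hMTZ m k p q hm hq) (fun q hq => hMRZ m k p q hm hq)
  exact key (k + 1) p (by omega)

end Pool.Agent.H11.EM
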